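import Pool.Agent.Helper69.FF.St
import Pool.Agent.Helper53.DV.St

/-! Project FF (MP_d684b1_an), module T1: assembly of Theorem 1. -/

set_option autoImplicit false

open scoped BigOperators

namespace Pool.Agent.Helper42.FF

open _root_.FF _root_.DV

theorem weak2_norm_le {X : Type} [NormedAddCommGroup X] [NormedSpace ℝ X] {N : ℕ} {x : Fin N → X}
    (hx : Weak2 x) (i : Fin N) : ‖x i‖ ≤ 1 := by
  have h := hx (Pi.single i 1)
  have h1 : ∑ j, (Pi.single i (1 : ℝ) : Fin N → ℝ) j • x j = x i := by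
    rw [Finset.sum_eq_single i]
    · simp
    · intro b _ hb
      simp [Pi.single_eq_of_ne hb]
    · intro hi
      exact absurd (Finset.mem_univ i) hi
  have h2 : ∑ j, (Pi.single i (1 : ℝ) : Fin N → ℝ) j ^ 2 = 1 := by
    rw [Finset.sum_eq_single i]
    · simp
    · intro b _ hb
      simp [Pi.single_eq_of_ne hb]
    · intro hi
      exact absurd (Finset.mem_univ i) hi
  rw [h1, h2, Real.sqrt_one] at h
  exact h

theorem weak2_sq {X : Type} [NormedAddCommGroup X] [NormedSpace ℝ X] {N : ℕ} {x : Fin N → X}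
    (hx : Weak2 x) (g : X →ₗ[ℝ] ℝ) (hg : ∀ y, |g y| ≤ ‖y‖) : ∑ i, g (x i) ^ 2 ≤ 1 := by
  have h := hx (fun i => g (x i))
  set S : ℝ := ∑ i, g (x i) ^ 2 with hS
  have hS0 : 0 ≤ S := Finset.sum_nonneg fun i _ => sq_nonneg _
  have h1 : g (∑ i, g (x i) • x i) = S := by
    rw [map_sum]
    simp only [map_smul, smul_eq_mul]
    rw [hS]
    refine Finset.sum_congr rfl fun i _ => ?_
    ring
  have h2 : S ≤ Real.sqrt S := by
    calc S = g (∑ i, g (x i) • x i) := h1.symm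
      _ ≤ |g (∑ i, g (x i) • x i)| := le_abs_self _
      _ ≤ ‖∑ i, g (x i) • x i‖ := hg _
      _ ≤ Real.sqrt S := h
  by_contra hcon
  push Not at hcon
  have h3 : Real.sqrt S < S := by
    rw [Real.sqrt_lt' (by linarith)]
    nlinarith
  linarith

theorem hT1 (hDR2 : _root_.DV.StDR2) (hF1a : StF1a) (hF1b : StF1b) (hE1 : StE1) (hP1 : StP1)
    (hCS : StCS) : StT1 := by
  intro d hd
  obtain ⟨C₀, hC₀, hcs⟩ := hCS d hd
  obtain ⟨C', hC', hp⟩ := hP1 d hd C₀ hC₀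
  refine ⟨max C' 1, lt_of_lt_of_le one_pos (le_max_right _ _), ?_⟩
  intro ε hε hε2 X _ _ _ m f hm hf1 hf2 hdim
  have hm1 : (1 : ℝ) ≤ m := by exact_mod_cast hm
  have hlog : 0 ≤ Real.log m := Real.log_nonneg hm1
  have hpow : 0 < ε ^ (-((d : ℝ) + 6) / 2) := Real.rpow_pos_of_pos hε _
  have hlp : 0 < (1 + Real.log m) ^ 5 := by positivity
  have hdim' : C' * ε ^ (-((d : ℝ) + 6) / 2) * (1 + Real.log m) ^ 5
      ≤ (Module.finrank ℝ X : ℝ) := by
    refine le_trans ?_ hdim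
    have := le_max_left C' 1
    gcongr
  have hn : 0 < Module.finrank ℝ X := by
    have h1 : 0 < max C' 1 * ε ^ (-((d : ℝ) + 6) / 2) * (1 + Real.log m) ^ 5 := by
      have : 0 < max C' 1 := lt_of_lt_of_le one_pos (le_max_right _ _)
      positivity
    have h2 : (0 : ℝ) < (Module.finrank ℝ X : ℝ) := lt_of_lt_of_le h1 hdim
    exact_mod_cast h2
  obtain ⟨s, r, M, J, B, θ, v, hθ, hθ3, hv, hr, hB, hsB, hJ, hrMJ, hM, h2θ, hexp1, hexp2⟩ :=
    hp ε hε hε2 m (Module.finrank ℝ X) hm hdim'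
  obtain ⟨N, hN, x, hx, hxn⟩ := hDR2 X (Module.finrank ℝ X) rfl hn
  have hsBN : s * B ≤ N := by omega
  have hx1 : ∀ i, ‖x i‖ ≤ 1 := weak2_norm_le hx
  obtain ⟨ι, hι⟩ := hE1 m N s B r (fun j i => f j (x i)) θ v hθ hB hsBN h2θ hexp1
    (fun j => weak2_sq hx (f j) (hf1 j))
  have he : 0 < ε / 40 := by positivity
  have he80 : ε / 40 ≤ 1 / 80 := by linarith
  have hup : ∀ j i, |f j (x (ι i))| ≤ 1 := fun j i => (hf1 j _).trans (hx1 _)
  have hlow : ∀ i, ∃ j, 1 / 3 ≤ |f j (x (ι i))| := by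
    intro i
    obtain ⟨j, hj⟩ := hf2 (x (ι i))
    refine ⟨j, ?_⟩
    have h1 := hxn (ι i)
    have h2 : (1 + ε / 4) * |f j (x (ι i))| ≤ (9 / 8) * |f j (x (ι i))| := by
      refine mul_le_mul_of_nonneg_right ?_ (abs_nonneg _)
      linarith
    linarith
  obtain ⟨B', a, σ, K, hK, hσ, hBc, hBd, hBθ, hBK, hBσ, hBK2⟩ :=
    hF1a X m s r M J f (fun i => x (ι i)) (ε / 40) θ he hθ hθ3 hup hlow
      (fun j => (hι j).1) hJ hrMJ
  obtain ⟨T₀, hT₀⟩ := hcs (ε / 40) he (by linarith) M hM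
  obtain ⟨T, hT1, hT2⟩ := hF1b X m (d + 1) s r M f (fun i => x (ι i)) (ε / 40) θ v K B' a σ T₀
    he he80 hv hr (by omega) hm (fun j => (hι j).2) hexp2 hT₀ hK hσ hBc hBd hBθ hBK hBσ hBK2
  have hK0 : 0 < K := by linarith
  have he3 : 0 < 1 - 3 * (ε / 40) := by linarith
  have hc : 0 < K * (1 - 3 * (ε / 40)) := mul_pos hK0 he3
  refine ⟨(K * (1 - 3 * (ε / 40)))⁻¹ • T, fun z => ?_⟩
  have hz : ‖((K * (1 - 3 * (ε / 40)))⁻¹ • T) z‖ = (K * (1 - 3 * (ε / 40)))⁻¹ * ‖T z‖ := by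
    rw [LinearMap.smul_apply, norm_smul, Real.norm_eq_abs, abs_of_pos (inv_pos.2 hc)]
  rw [hz]
  constructor
  · obtain ⟨j, hj⟩ := hT2 z
    have h1 : K * (1 - 3 * (ε / 40)) * ‖z‖ ≤ ‖T z‖ := hj.trans (hf1 j _)
    rw [inv_mul_eq_div, le_div_iff₀ hc]
    linarith
  · obtain ⟨j, hj⟩ := hf2 (T z)
    have h1 : ‖T z‖ ≤ (1 + ε / 4) * (K * (1 + 2 * (ε / 40)) * ‖z‖) := by
      refine hj.trans ?_
      refine mul_le_mul_of_nonneg_left (hT1 z j) ?_
      positivity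
    rw [inv_mul_eq_div, div_le_iff₀ hc]
    have h2 : (1 + ε / 4) * (1 + 2 * (ε / 40)) ≤ (1 + ε) * (1 - 3 * (ε / 40)) := by
      nlinarith [mul_nonneg hε.le (sub_nonneg.2 hε2)]
    calc ‖T z‖ ≤ (1 + ε / 4) * (K * (1 + 2 * (ε / 40)) * ‖z‖) := h1
      _ = ((1 + ε / 4) * (1 + 2 * (ε / 40))) * (K * ‖z‖) := by ring
      _ ≤ ((1 + ε) * (1 - 3 * (ε / 40))) * (K * ‖z‖) :=
          mul_le_mul_of_nonneg_right h2 (by positivity)
      _ = (1 + ε) * ‖z‖ * (K * (1 - 3 * (ε / 40))) := by ring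

end Pool.Agent.Helper42.FF
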